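import Mathlib

set_option autoImplicit false

open MeasureTheory ProbabilityTheory Finset
open scoped ENNReal Pointwise

namespace Pool.Agent.Results.MP_9049cc_pr.NoDilate

/-- The normalised Gaussian measure on `ℝ^ℕ`: the product of countably many copies of `N(0,1)`. -/
noncomputable def gam : Measure (ℕ → ℝ) := Measure.infinitePi fun _ : ℕ => gaussianReal 0 1

instance : IsProbabilityMeasure gam := by unfold gam; infer_instance

lemma pdf_le (x : ℝ) : gaussianPDF 0 1 x ≤ ENNReal.ofReal (1 / 2) := by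
  unfold gaussianPDF
  apply ENNReal.ofReal_le_ofReal
  unfold gaussianPDFReal
  have h1 : Real.exp (-(x - 0) ^ 2 / (2 * ((1 : NNReal) : ℝ))) ≤ 1 := by
    apply Real.exp_le_one_iff.2
    have : 0 ≤ (x - 0) ^ 2 := sq_nonneg _
    simp only [NNReal.coe_one]
    linarith
  have h2 : 2 ≤ Real.sqrt (2 * Real.pi * ((1 : NNReal) : ℝ)) := by
    apply Real.le_sqrt_of_sq_le
    have := Real.pi_gt_three
    simp only [NNReal.coe_one]
    linarith
  have h3 : (Real.sqrt (2 * Real.pi * ((1 : NNReal) : ℝ)))⁻¹ ≤ 1 / 2 := by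
    rw [one_div]
    exact inv_anti₀ (by norm_num) h2
  calc (Real.sqrt (2 * Real.pi * ((1 : NNReal) : ℝ)))⁻¹ * Real.exp (-(x - 0) ^ 2 / (2 * ((1 : NNReal) : ℝ)))
      ≤ (Real.sqrt (2 * Real.pi * ((1 : NNReal) : ℝ)))⁻¹ * 1 := by gcongr
    _ ≤ 1 / 2 := by linarith

lemma le_pdf {x : ℝ} (hx : |x| ≤ 1) : ENNReal.ofReal (1 / 10) ≤ gaussianPDF 0 1 x := by
  unfold gaussianPDF
  apply ENNReal.ofReal_le_ofReal
  unfold gaussianPDFReal
  have hx2 : x ^ 2 ≤ 1 := by rw [← sq_abs]; nlinarith [abs_nonneg x]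
  have h1 : 1 / 2 ≤ Real.exp (-(x - 0) ^ 2 / (2 * ((1 : NNReal) : ℝ))) := by
    have h : (-(x - 0) ^ 2 / (2 * ((1 : NNReal) : ℝ))) + 1 ≤ Real.exp (-(x - 0) ^ 2 / (2 * ((1 : NNReal) : ℝ))) :=
      Real.add_one_le_exp _
    simp only [NNReal.coe_one] at h ⊢
    nlinarith
  have h2 : Real.sqrt (2 * Real.pi * ((1 : NNReal) : ℝ)) ≤ 5 := by
    apply Real.sqrt_le_iff.2
    refine ⟨by norm_num, ?_⟩
    have := Real.pi_lt_four
    simp only [NNReal.coe_one]
    linarith
  have h0 : 0 < Real.sqrt (2 * Real.pi * ((1 : NNReal) : ℝ)) := by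
    apply Real.sqrt_pos.2
    simp only [NNReal.coe_one]
    positivity
  have h3 : 1 / 5 ≤ (Real.sqrt (2 * Real.pi * ((1 : NNReal) : ℝ)))⁻¹ := by
    rw [one_div]
    exact inv_anti₀ h0 h2
  calc (1 : ℝ) / 10 = 1 / 5 * (1 / 2) := by norm_num
    _ ≤ _ := by gcongr

/-- mass of a short interval, upper bound -/
lemma interval_le (a b : ℝ) : gaussianReal 0 1 (Set.Icc a b) ≤ ENNReal.ofReal ((b - a) / 2) := by
  rw [gaussianReal_apply _ one_ne_zero]
  calc ∫⁻ x in Set.Icc a b, gaussianPDF 0 1 x ≤ ∫⁻ _ in Set.Icc a b, ENNReal.ofReal (1 / 2) :=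
        lintegral_mono fun x => pdf_le x
    _ = ENNReal.ofReal (1 / 2) * ENNReal.ofReal (b - a) := by
        rw [setLIntegral_const, Real.volume_Icc]
    _ = ENNReal.ofReal ((b - a) / 2) := by
        rw [← ENNReal.ofReal_mul (by norm_num)]
        congr 1
        ring

/-- mass of a short interval, lower bound -/
lemma le_interval {s : ℝ} (hs : s ≤ 1) :
    ENNReal.ofReal (s / 5) ≤ gaussianReal 0 1 (Set.Icc (-s) s) := by
  rw [gaussianReal_apply _ one_ne_zero]
  calc ENNReal.ofReal (s / 5) = ENNReal.ofReal (1 / 10) * ENNReal.ofReal (s - -s) := by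
        rw [← ENNReal.ofReal_mul (by norm_num)]
        congr 1
        ring
    _ = ∫⁻ _ in Set.Icc (-s) s, ENNReal.ofReal (1 / 10) := by
        rw [setLIntegral_const, Real.volume_Icc]
    _ ≤ ∫⁻ x in Set.Icc (-s) s, gaussianPDF 0 1 x := by
        apply setLIntegral_mono' measurableSet_Icc
        intro x hx
        exact le_pdf (abs_le.2 ⟨by linarith [hx.1], by linarith [hx.2]⟩)

lemma half_symm : gaussianReal 0 1 (Set.Ici 0) = gaussianReal 0 1 (Set.Iic 0) := by
  have h : (gaussianReal 0 1).map (fun x => -x) = gaussianReal 0 1 := by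
    rw [gaussianReal_map_neg, neg_zero]
  conv_lhs => rw [← h]
  rw [Measure.map_apply measurable_neg measurableSet_Ici]
  congr 1
  ext x
  simp

lemma half_le (p : Prop) [Decidable p] :
    gaussianReal 0 1 (if p then Set.Ici 0 else Set.Iic 0) = 1 / 2 := by
  have hna : NullSingletonClass (gaussianReal 0 1) := nullSingletonClass_gaussianReal one_ne_zero
  have h1 : gaussianReal 0 1 (Set.Iic 0) + gaussianReal 0 1 (Set.Ici 0) = 1 := by
    have h2 : gaussianReal 0 1 (Set.Ici (0 : ℝ)) = gaussianReal 0 1 (Set.Ioi 0) :=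
      measure_congr Ioi_ae_eq_Ici.symm
    rw [h2, ← measure_union (by
      rw [Set.disjoint_left]
      intro x hx hx'
      exact absurd (Set.mem_Ioi.1 hx') (not_lt.2 (Set.mem_Iic.1 hx))) measurableSet_Ioi,
      Set.Iic_union_Ioi, measure_univ]
  have h3 : gaussianReal 0 1 (Set.Iic (0 : ℝ)) = 1 / 2 := by
    rw [half_symm, ← two_mul] at h1
    rw [ENNReal.eq_div_iff (by norm_num) (by norm_num)]
    exact h1
  split_ifs
  · rw [half_symm, h3]
  · exact h3


/-- the half line selected by a set of indices -/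
noncomputable def hl (S : Finset ℕ) (i : ℕ) : Set ℝ := by
  classical
  exact if i ∈ S then Set.Ici 0 else Set.Iic 0

lemma hl_meas (S : Finset ℕ) (i : ℕ) : MeasurableSet (hl S i) := by
  unfold hl
  split_ifs
  · exact measurableSet_Ici
  · exact measurableSet_Iic

lemma hl_measure (S : Finset ℕ) (i : ℕ) : gaussianReal 0 1 (hl S i) = 1 / 2 := by
  classical
  have := half_le (i ∈ S)
  unfold hl
  exact this

/-- orthant of the first `M` coordinates -/
def orth (M : ℕ) (S : Finset ℕ) : Set (ℕ → ℝ) := Set.pi (range M) (hl S)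

lemma orth_meas (M : ℕ) (S : Finset ℕ) : MeasurableSet (orth M S) :=
  MeasurableSet.pi (range M).countable_toSet fun i _ => hl_meas S i

/-- part of the orthant where the `i`-th coordinate is small -/
def orthS (M : ℕ) (S : Finset ℕ) (i : ℕ) (r : ℝ) : Set (ℕ → ℝ) :=
  Set.pi (range M) (fun j => if j = i then hl S i ∩ Set.Icc (-r) r else hl S j)

lemma orthS_eq {M : ℕ} {S : Finset ℕ} {i : ℕ} (hi : i < M) {r : ℝ} (x : ℕ → ℝ) :
    x ∈ orthS M S i r ↔ x ∈ orth M S ∧ |x i| ≤ r := by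
  unfold orthS orth
  simp only [Set.mem_pi, mem_coe, mem_range]
  constructor
  · intro h
    have hi' := h i hi
    rw [if_pos rfl] at hi'
    refine ⟨fun j hj => ?_, abs_le.2 ⟨hi'.2.1, hi'.2.2⟩⟩
    by_cases hji : j = i
    · rw [hji]; exact hi'.1
    · have := h j hj
      rwa [if_neg hji] at this
  · rintro ⟨h1, h2⟩ j hj
    by_cases hji : j = i
    · rw [if_pos hji, hji]
      exact ⟨h1 i hi, (abs_le.1 h2).1, (abs_le.1 h2).2⟩
    · rw [if_neg hji]
      exact h1 j hj

lemma small_half_le (S : Finset ℕ) (i : ℕ) (r : ℝ) :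
    gaussianReal 0 1 (hl S i ∩ Set.Icc (-r) r) ≤ ENNReal.ofReal (r / 2) := by
  unfold hl
  split_ifs
  · refine le_trans (measure_mono (t := Set.Icc 0 r) ?_) (le_of_le_of_eq (interval_le 0 r) ?_)
    · intro x hx
      exact ⟨hx.1, hx.2.2⟩
    · rw [sub_zero]
  · refine le_trans (measure_mono (t := Set.Icc (-r) 0) ?_) (le_of_le_of_eq (interval_le (-r) 0) ?_)
    · intro x hx
      exact ⟨hx.2.1, hx.1⟩
    · rw [zero_sub, neg_neg]

lemma orthS_measure {M : ℕ} (S : Finset ℕ) {i : ℕ} (hi : i < M) {r : ℝ} :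
    gam (orthS M S i r) ≤ (1 / 2) ^ M * ENNReal.ofReal r := by
  unfold gam orthS
  rw [Measure.infinitePi_pi]
  · rw [← Finset.mul_prod_erase _ _ (mem_range.2 hi), if_pos rfl]
    have h1 : ∏ x ∈ (range M).erase i, gaussianReal 0 1 (if x = i then hl S i ∩ Set.Icc (-r) r else hl S x) =
        (1 / 2) ^ (M - 1) := by
      rw [Finset.prod_congr rfl (g := fun _ => (1 / 2 : ℝ≥0∞))]
      · rw [prod_const, card_erase_of_mem (mem_range.2 hi), card_range]
      · intro x hx
        rw [if_neg (ne_of_mem_erase hx), hl_measure]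
    rw [h1]
    have hM : M = (M - 1) + 1 := by omega
    calc gaussianReal 0 1 (hl S i ∩ Set.Icc (-r) r) * (1 / 2) ^ (M - 1)
        ≤ ENNReal.ofReal (r / 2) * (1 / 2) ^ (M - 1) := by
          gcongr
          exact small_half_le S i r
      _ = (1 / 2) ^ M * ENNReal.ofReal r := by
          conv_rhs => rw [hM, pow_succ]
          have : ENNReal.ofReal (r / 2) = (1 / 2) * ENNReal.ofReal r := by
            rw [div_eq_inv_mul, ENNReal.ofReal_mul (by norm_num), ENNReal.ofReal_inv_of_pos (by norm_num)]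
            simp
          rw [this]
          ring
  · intro j _
    split_ifs
    · exact (hl_meas S i).inter measurableSet_Icc
    · exact hl_meas S j

/-- Key step: a set of points of one orthant any two of whose midpoints has a small coordinate is small. -/
lemma key {M : ℕ} (S : Finset ℕ) {D : Set (ℕ → ℝ)} (hDS : D ⊆ orth M S) {r : ℝ}
    (hr : 0 ≤ r) (h : ∀ x ∈ D, ∀ y ∈ D, ∃ i < M, |(x i + y i) / 2| ≤ r / 2) :
    gam.real D ≤ Real.sqrt M * ((1 / 2) ^ M * r) := by
  have h1 : D ×ˢ D ⊆ ⋃ i ∈ range M, (orthS M S i r) ×ˢ (orthS M S i r) := by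
    rintro ⟨x, y⟩ ⟨hx, hy⟩
    obtain ⟨i, hi, hi'⟩ := h x hx y hy
    have hxS := hDS hx
    have hyS := hDS hy
    have hxi : x i ∈ hl S i := hxS i (by simpa using hi)
    have hyi : y i ∈ hl S i := hyS i (by simpa using hi)
    have h2 : |x i| ≤ r ∧ |y i| ≤ r := by
      rw [abs_le] at hi'
      unfold hl at hxi hyi
      split_ifs at hxi hyi
      · have hx0 : 0 ≤ x i := hxi
        have hy0 : 0 ≤ y i := hyi
        exact ⟨abs_le.2 ⟨by linarith, by linarith⟩, abs_le.2 ⟨by linarith, by linarith⟩⟩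
      · have hx0 : x i ≤ 0 := hxi
        have hy0 : y i ≤ 0 := hyi
        exact ⟨abs_le.2 ⟨by linarith, by linarith⟩, abs_le.2 ⟨by linarith, by linarith⟩⟩
    simp only [Set.mem_iUnion]
    exact ⟨i, mem_range.2 hi, (orthS_eq hi x).2 ⟨hxS, h2.1⟩, (orthS_eq hi y).2 ⟨hyS, h2.2⟩⟩
  have h3 : gam.real D * gam.real D ≤ ∑ i ∈ range M, (gam.real (orthS M S i r)) * (gam.real (orthS M S i r)) := by
    have := measureReal_mono (μ := gam.prod gam) h1 (measure_ne_top _ _)
    rw [measureReal_prod_prod] at this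
    refine this.trans ((measureReal_biUnion_finset_le _ _).trans (le_of_eq ?_))
    simp_rw [measureReal_prod_prod]
  have h4 : ∀ i ∈ range M, (gam.real (orthS M S i r)) * (gam.real (orthS M S i r)) ≤
      ((1 / 2) ^ M * r) ^ 2 := by
    intro i hi
    have h5 := orthS_measure S (mem_range.1 hi) (r := r)
    have h6 : gam.real (orthS M S i r) ≤ (1 / 2) ^ M * r := by
      rw [measureReal_def]
      refine (ENNReal.toReal_mono ?_ h5).trans (le_of_eq ?_)
      · exact ENNReal.mul_ne_top (ENNReal.pow_ne_top (by simp)) ENNReal.ofReal_ne_top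
      · rw [ENNReal.toReal_mul, ENNReal.toReal_ofReal hr, ENNReal.toReal_pow]
        simp
    have h7 : 0 ≤ gam.real (orthS M S i r) := measureReal_nonneg
    nlinarith
  have h8 : (gam.real D) ^ 2 ≤ M * ((1 / 2) ^ M * r) ^ 2 := by
    calc (gam.real D) ^ 2 = gam.real D * gam.real D := sq _
      _ ≤ _ := h3
      _ ≤ ∑ i ∈ range M, ((1 / 2) ^ M * r) ^ 2 := Finset.sum_le_sum h4
      _ = _ := by rw [sum_const, card_range, nsmul_eq_mul]
  have h9 : (Real.sqrt M * ((1 / 2) ^ M * r)) ^ 2 = M * ((1 / 2) ^ M * r) ^ 2 := by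
    rw [mul_pow, Real.sq_sqrt (Nat.cast_nonneg _)]
  rw [← h9] at h8
  exact le_of_sq_le_sq h8 (by positivity)

lemma convex_le {M : ℕ} {C : Set (ℕ → ℝ)} (hcv : Convex ℝ C) {r : ℝ} (hr : 0 ≤ r)
    (h : ∀ x ∈ C, ∃ i < M, |x i| ≤ r / 2) : gam.real C ≤ Real.sqrt M * r := by
  classical
  have h1 : C ⊆ ⋃ S ∈ (range M).powerset, C ∩ orth M S := by
    intro x hx
    simp only [Set.mem_iUnion]
    refine ⟨(range M).filter (fun i => 0 ≤ x i), by simp, hx, ?_⟩
    intro i hi
    have hi' : i ∈ range M := by simpa using hi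
    unfold hl
    split_ifs with h2
    · exact (mem_filter.1 h2).2
    · rw [mem_filter] at h2
      push Not at h2
      exact (h2 hi').le
  have h2 : ∀ S ∈ (range M).powerset, gam.real (C ∩ orth M S) ≤ Real.sqrt M * ((1 / 2) ^ M * r) := by
    intro S _
    refine key S Set.inter_subset_right hr ?_
    intro x hx y hy
    have hm : (1 / 2 : ℝ) • x + (1 / 2 : ℝ) • y ∈ C := hcv hx.1 hy.1 (by norm_num) (by norm_num) (by norm_num)
    obtain ⟨i, hi, hi'⟩ := h _ hm
    refine ⟨i, hi, ?_⟩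
    convert hi' using 2
    simp only [Pi.add_apply, Pi.smul_apply, smul_eq_mul]
    ring
  calc gam.real C ≤ gam.real (⋃ S ∈ (range M).powerset, C ∩ orth M S) := measureReal_mono h1 (measure_ne_top _ _)
    _ ≤ ∑ S ∈ (range M).powerset, gam.real (C ∩ orth M S) := measureReal_biUnion_finset_le _ _
    _ ≤ ∑ S ∈ (range M).powerset, Real.sqrt M * ((1 / 2) ^ M * r) := Finset.sum_le_sum h2
    _ = Real.sqrt M * r := by
        rw [sum_const, card_powerset, card_range, nsmul_eq_mul]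
        push_cast
        have : (2 : ℝ) ^ M * (1 / 2) ^ M = 1 := by rw [← mul_pow]; norm_num
        calc (2 : ℝ) ^ M * (Real.sqrt M * ((1 / 2) ^ M * r)) = (2 ^ M * (1 / 2) ^ M) * (Real.sqrt M * r) := by ring
          _ = _ := by rw [this, one_mul]


/-- points having a small coordinate among the first `M` -/
def sm (M : ℕ) (s : ℝ) : Set (ℕ → ℝ) := {x | ∃ i < M, |x i| ≤ s}

lemma sm_eq (M : ℕ) (s : ℝ) : sm M s = ⋃ i ∈ range M, {x : ℕ → ℝ | |x i| ≤ s} := by
  ext x
  simp [sm]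

lemma sm_closed (M : ℕ) (s : ℝ) : IsClosed (sm M s) := by
  rw [sm_eq]
  refine isClosed_biUnion_finset fun i _ => ?_
  exact isClosed_le (by fun_prop) continuous_const

lemma sm_compl (M : ℕ) (s : ℝ) : (sm M s)ᶜ = Set.pi (range M) (fun _ => (Set.Icc (-s) s)ᶜ) := by
  ext x
  simp only [sm, Set.mem_compl_iff, Set.mem_ofPred_eq, Set.mem_pi, mem_coe, mem_range, Set.mem_Icc,
    not_exists, not_and]
  constructor
  · intro h i hi h1 h2
    exact h i hi (abs_le.2 ⟨h1, h2⟩)
  · intro h i hi h1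
    exact h i hi (abs_le.1 h1).1 (abs_le.1 h1).2

lemma sm_compl_le {M : ℕ} {s : ℝ} (hs0 : 0 ≤ s) (hs : s ≤ 1) :
    gam (sm M s)ᶜ ≤ ENNReal.ofReal (Real.exp (-(M * s / 5))) := by
  rw [sm_compl]
  unfold gam
  rw [Measure.infinitePi_pi _ fun i _ => measurableSet_Icc.compl, prod_const, card_range]
  have h1 : gaussianReal 0 1 (Set.Icc (-s) s)ᶜ ≤ ENNReal.ofReal (Real.exp (-(s / 5))) := by
    rw [prob_compl_eq_one_sub measurableSet_Icc]
    calc 1 - gaussianReal 0 1 (Set.Icc (-s) s) ≤ 1 - ENNReal.ofReal (s / 5) :=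
          tsub_le_tsub_left (le_interval hs) _
      _ = ENNReal.ofReal (1 - s / 5) := by
          rw [ENNReal.ofReal_sub _ (by positivity), ENNReal.ofReal_one]
      _ ≤ _ := by
          apply ENNReal.ofReal_le_ofReal
          have := Real.add_one_le_exp (-(s / 5))
          linarith
  calc (gaussianReal 0 1 (Set.Icc (-s) s)ᶜ) ^ M ≤ (ENNReal.ofReal (Real.exp (-(s / 5)))) ^ M := by gcongr
    _ = _ := by
        rw [← ENNReal.ofReal_pow (Real.exp_pos _).le, ← Real.exp_nat_mul]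
        congr 2
        ring

lemma exists_params {e : ℝ} (he : 0 < e) (n : ℕ) :
    ∃ (M : ℕ) (s : ℝ), 0 ≤ s ∧ Real.sqrt M * s ≤ 1 / (n + 1) ∧ gam (sm M s)ᶜ ≤ ENNReal.ofReal e := by
  obtain ⟨A, hA1, hA⟩ : ∃ A : ℝ, 1 ≤ A ∧ Real.exp (-(A / 5)) ≤ e := by
    refine ⟨max 1 (-5 * Real.log e), le_max_left _ _, ?_⟩
    rw [← Real.le_log_iff_exp_le he]
    have := le_max_right 1 (-5 * Real.log e)
    linarith
  obtain ⟨M, hM⟩ := exists_nat_ge ((A * (n + 1)) ^ 2)
  have hn : (1 : ℝ) ≤ n + 1 := by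
    have : (0 : ℝ) ≤ n := Nat.cast_nonneg n
    linarith
  have hAn : 1 ≤ A * (n + 1) := by nlinarith
  have hM0 : (0 : ℝ) < M := by
    have : (0 : ℝ) < (A * (n + 1)) ^ 2 := by positivity
    linarith
  have hMA : A ≤ M := by
    have h1 : A * 1 ≤ A * (n + 1) := by gcongr
    have h2 : A * (n + 1) ≤ (A * (n + 1)) ^ 2 := by nlinarith
    linarith
  refine ⟨M, A / M, by positivity, ?_, ?_⟩
  · have hs : A * (n + 1) ≤ Real.sqrt M := Real.le_sqrt_of_sq_le hM
    have hs0 : 0 < Real.sqrt M := Real.sqrt_pos.2 hM0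
    have h1 : Real.sqrt M * (A / M) = A / Real.sqrt M := by
      rw [eq_div_iff hs0.ne']
      calc Real.sqrt M * (A / M) * Real.sqrt M = (Real.sqrt M * Real.sqrt M) * (A / M) := by ring
        _ = M * (A / M) := by rw [Real.mul_self_sqrt hM0.le]
        _ = A := mul_div_cancel₀ _ hM0.ne'
    rw [h1, div_le_div_iff₀ hs0 (by linarith)]
    linarith
  · refine (sm_compl_le (by positivity) ((div_le_one hM0).2 hMA)).trans ?_
    apply ENNReal.ofReal_le_ofReal
    rw [mul_div_cancel₀ _ hM0.ne']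
    exact hA

/-- large boxes carry almost all mass -/
lemma exists_box {e : ℝ≥0∞} (he : e ≠ 0) : ∃ c : ℕ → ℝ,
    gam (Set.pi Set.univ fun j => Set.Icc (-(c j)) (c j))ᶜ ≤ e := by
  obtain ⟨w, hw0, hw⟩ := ENNReal.exists_pos_sum_of_countable' he ℕ
  have h1 : ∀ j, ∃ c : ℝ, gaussianReal 0 1 (Set.Icc (-c) c)ᶜ ≤ w j := by
    intro j
    have ht : Filter.Tendsto (fun n : ℕ => gaussianReal 0 1 (Set.Icc (-(n : ℝ)) n)ᶜ) Filter.atTop
        (nhds (gaussianReal 0 1 (⋂ n : ℕ, (Set.Icc (-(n : ℝ)) n)ᶜ))) := by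
      apply tendsto_measure_iInter_atTop
      · intro n
        exact measurableSet_Icc.compl.nullMeasurableSet
      · intro m n hmn
        have : (m : ℝ) ≤ n := by exact_mod_cast hmn
        exact Set.compl_subset_compl.2 (Set.Icc_subset_Icc (by linarith) this)
      · exact ⟨0, measure_ne_top _ _⟩
    have h0 : (⋂ n : ℕ, (Set.Icc (-(n : ℝ)) n)ᶜ) = ∅ := by
      rw [Set.eq_empty_iff_forall_notMem]
      intro x hx
      obtain ⟨n, hn⟩ := exists_nat_ge |x|
      have := Set.mem_iInter.1 hx n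
      exact this (by rw [Set.mem_Icc]; exact abs_le.1 hn)
    rw [h0, measure_empty] at ht
    obtain ⟨n, hn⟩ := ((ht.eventually (gt_mem_nhds (hw0 j))).exists)
    exact ⟨n, hn.le⟩
  choose c hc using h1
  refine ⟨c, ?_⟩
  have h2 : (Set.pi Set.univ fun j => Set.Icc (-(c j)) (c j))ᶜ ⊆
      ⋃ j : ℕ, (fun x : ℕ → ℝ => x j) ⁻¹' (Set.Icc (-(c j)) (c j))ᶜ := by
    intro x hx
    rw [Set.mem_compl_iff, Set.mem_pi] at hx
    push Not at hx
    obtain ⟨j, _, hj⟩ := hx
    exact Set.mem_iUnion.2 ⟨j, hj⟩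
  refine (measure_mono h2).trans ((measure_iUnion_le _).trans ?_)
  refine (ENNReal.tsum_le_tsum fun j => ?_).trans hw.le
  have h3 : gam ((fun x : ℕ → ℝ => x j) ⁻¹' (Set.Icc (-(c j)) (c j))ᶜ) =
      gaussianReal 0 1 (Set.Icc (-(c j)) (c j))ᶜ := by
    exact (measurePreserving_eval_infinitePi (fun _ : ℕ => gaussianReal 0 1) j).measure_preimage
      measurableSet_Icc.compl.nullMeasurableSet
  rw [h3]
  exact hc j

/-- **Theorem.** For every `ε > 0` there is a balanced compact set `K ⊆ ℝ^ℕ` with `γ_∞(K) ≥ 1 - ε`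
such that no dilate `t K` (`t` any real number) contains a convex set of positive Gaussian (outer)
measure.  With `ε = 0.01`, `t = 10`: `10 K` contains no compact convex set `C` with
`γ_∞(C) ≥ 0.01`, and the same holds with any constant in place of `10`. -/
theorem result (ε : ℝ) (hε : 0 < ε) :
    ∃ K : Set (ℕ → ℝ), IsCompact K ∧ Balanced ℝ K ∧ 1 - ε ≤ gam.real K ∧
      ∀ (t : ℝ) (C : Set (ℕ → ℝ)), Convex ℝ C → C ⊆ t • K → gam C = 0 := by
  obtain ⟨w, hw0, hw⟩ := ENNReal.exists_pos_sum_of_countable' (ε := ENNReal.ofReal (ε / 2))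
    (by simpa using hε) ℕ
  have hwt : ∀ n, w n ≠ ⊤ := by
    intro n h
    have : w n ≤ ∑' i, w i := ENNReal.le_tsum n
    rw [h, top_le_iff] at this
    rw [this] at hw
    exact absurd hw (by simp)
  have hpar := fun n => exists_params (e := (w n).toReal) (ENNReal.toReal_pos (hw0 n).ne' (hwt n)) n
  choose M s hs0 hsq hm using hpar
  obtain ⟨c, hc⟩ := exists_box (e := ENNReal.ofReal (ε / 2)) (by simpa using hε)
  set B : Set (ℕ → ℝ) := Set.pi Set.univ fun j => Set.Icc (-(c j)) (c j) with hB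
  set K : Set (ℕ → ℝ) := B ∩ ⋂ n, sm (M n) (s n) with hK
  have hBc : IsCompact B := isCompact_univ_pi fun j => isCompact_Icc
  have hKc : IsCompact K := hBc.inter_right (isClosed_iInter fun n => sm_closed _ _)
  refine ⟨K, hKc, ?_, ?_, ?_⟩
  · intro a ha x hx
    obtain ⟨y, hy, rfl⟩ := hx
    have hsc : ∀ i, |(a • y) i| ≤ |y i| := by
      intro i
      rw [Pi.smul_apply, smul_eq_mul, abs_mul]
      have : |a| ≤ 1 := ha
      calc |a| * |y i| ≤ 1 * |y i| := by gcongr
        _ = _ := one_mul _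
    refine ⟨?_, ?_⟩
    · intro j _
      have h1 := hy.1 j (Set.mem_univ j)
      have h2 : |y j| ≤ c j := abs_le.2 h1
      exact abs_le.1 ((hsc j).trans h2)
    · refine Set.mem_iInter.2 fun n => ?_
      obtain ⟨i, hi, hi'⟩ := Set.mem_iInter.1 hy.2 n
      exact ⟨i, hi, (hsc i).trans hi'⟩
  · have h1 : gam Kᶜ ≤ ENNReal.ofReal ε := by
      have h2 : Kᶜ ⊆ Bᶜ ∪ ⋃ n, (sm (M n) (s n))ᶜ := by
        rw [hK, Set.compl_inter, Set.compl_iInter]
      refine (measure_mono h2).trans ((measure_union_le _ _).trans ?_)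
      have h3 : gam (⋃ n, (sm (M n) (s n))ᶜ) ≤ ENNReal.ofReal (ε / 2) := by
        refine (measure_iUnion_le _).trans ((ENNReal.tsum_le_tsum fun n => ?_).trans hw.le)
        refine (hm n).trans (le_of_eq ?_)
        exact ENNReal.ofReal_toReal (hwt n)
      calc gam Bᶜ + gam (⋃ n, (sm (M n) (s n))ᶜ) ≤ ENNReal.ofReal (ε / 2) + ENNReal.ofReal (ε / 2) :=
            add_le_add hc h3
        _ = ENNReal.ofReal ε := by
            rw [← ENNReal.ofReal_add (by positivity) (by positivity)]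
            congr 1
            ring
    have h4 : gam.real Kᶜ ≤ ε := by
      rw [measureReal_def]
      calc (gam Kᶜ).toReal ≤ (ENNReal.ofReal ε).toReal := ENNReal.toReal_mono ENNReal.ofReal_ne_top h1
        _ = ε := ENNReal.toReal_ofReal hε.le
    have h5 := measureReal_add_measureReal_compl (μ := gam) hKc.measurableSet
    rw [probReal_univ] at h5
    linarith
  · intro t C hcv hCK
    have h1 : ∀ n : ℕ, gam.real C ≤ 2 * |t| * (1 / (n + 1)) := by
      intro n
      have h2 : ∀ x ∈ C, ∃ i < M n, |x i| ≤ (2 * |t| * s n) / 2 := by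
        intro x hx
        obtain ⟨y, hy, rfl⟩ := hCK hx
        obtain ⟨i, hi, hi'⟩ := Set.mem_iInter.1 hy.2 n
        refine ⟨i, hi, ?_⟩
        simp only [Pi.smul_apply, smul_eq_mul, abs_mul]
        calc |t| * |y i| ≤ |t| * s n := by gcongr
          _ = _ := by ring
      have h3 := convex_le hcv (r := 2 * |t| * s n) (mul_nonneg (by positivity) (hs0 n)) h2
      calc gam.real C ≤ Real.sqrt (M n) * (2 * |t| * s n) := h3
        _ = 2 * |t| * (Real.sqrt (M n) * s n) := by ring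
        _ ≤ _ := by gcongr; exact hsq n
    have h4 : gam.real C ≤ 0 := by
      have ht : Filter.Tendsto (fun n : ℕ => 2 * |t| * (1 / ((n : ℝ) + 1))) Filter.atTop (nhds (2 * |t| * 0)) :=
        tendsto_one_div_add_atTop_nhds_zero_nat.const_mul _
      rw [mul_zero] at ht
      exact ge_of_tendsto' ht h1
    have h5 : gam.real C = 0 := le_antisymm h4 measureReal_nonneg
    rwa [measureReal_eq_zero_iff] at h5

end Pool.Agent.Results.MP_9049cc_pr.NoDilate
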